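import Pool.Agent.Run7.h651.NEG.ZR

set_option autoImplicit false

/-! # ZC: column cost of the localized tuples -/

namespace Run7.h651.NEG.ZC

open Finset Module Classical Run7.h35.NEG Run7.h651.NEG.ZR

variable {T : Tower} {J : ℕ} {H₂ ε C₀ δ : ℝ} {g Γ : ℕ} {c : ℕ → Fin (2 ^ T.a) → Fin J → ℝ}
  {Lo r Hi : ℕ → ℕ}

/-! ### windows -/

theorem occ_mono {s s' : ℕ} (h : s ≤ s') (ν : Fin (2 ^ T.a)) : occ c s ν ≤ occ c s' ν := by
  unfold occ
  refine card_le_card fun j hj => ?_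
  simp only [mem_filter, mem_univ, true_and] at hj ⊢
  obtain ⟨t, ht, h1⟩ := hj
  refine ⟨t, ?_, h1⟩
  rw [mem_range] at ht ⊢
  omega

theorem pow10 (x : ℕ) : x ≤ x ^ 10 := Nat.le_self_pow (by norm_num) x

theorem Lo_le_Hi (hw : Win T c δ Lo r Hi) {s : ℕ} (hs : s < T.top) : Lo s ≤ Hi s :=
  (pow10 _).trans ((hw.mid s hs).trans ((pow10 _).trans (hw.hi s hs)))

theorem Hi_le_Lo (hT : T.OK H₂ ε C₀ g Γ) (hw : Win T c δ Lo r Hi) {s : ℕ} (hs : s + 1 < T.top) :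
    Hi s ≤ Lo (s + 1) := by
  have h1 := hw.up s (by omega)
  have h2 := hw.lo (s + 1) hs
  have h3 := hT.n_eq (s + 1) hs
  have h4 : T.k (s + 1) ≤ T.n (s + 1) := by
    rw [h3]
    exact Nat.le_self_pow (by norm_num) _
  exact (pow10 _).trans (h1.trans (h4.trans ((pow10 _).trans h2)))

theorem Lo_mono (hT : T.OK H₂ ε C₀ g Γ) (hw : Win T c δ Lo r Hi) {s s' : ℕ} (h : s ≤ s')
    (hs : s' < T.top) : Lo s ≤ Lo s' := by
  induction s', h using Nat.le_induction with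
  | base => exact le_rfl
  | succ m hm ih =>
    exact (ih (by omega)).trans ((Lo_le_Hi hw (by omega)).trans (Hi_le_Lo hT hw hs))

theorem mem_Sf {s : ℕ} (hs : s < T.top) (ν : Fin (2 ^ T.a)) :
    ν ∈ Sf T c Lo s ↔ J ≤ Lo s * occ c s ν := by
  unfold Sf
  rw [if_pos hs]
  simp

theorem Sf_mono (hT : T.OK H₂ ε C₀ g Γ) (hw : Win T c δ Lo r Hi) {s s' : ℕ} (h : s ≤ s') :
    Sf T c Lo s ⊆ Sf T c Lo s' := by
  intro ν hν
  by_cases hs : s' < T.top
  · rw [mem_Sf hs]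
    rw [mem_Sf (lt_of_le_of_lt h hs)] at hν
    exact hν.trans (Nat.mul_le_mul (Lo_mono hT hw h hs) (occ_mono h ν))
  · unfold Sf
    rw [if_neg hs]
    exact mem_univ _

theorem Sf_subset_Sp (hT : T.OK H₂ ε C₀ g Γ) (hw : Win T c δ Lo r Hi) {s i : ℕ} (h : s ≤ i)
    (hi : i < T.top) : Sf T c Lo s ⊆ Sp T c Hi i := by
  intro ν hν
  have h1 := Sf_mono hT hw h hν
  rw [mem_Sf hi] at h1
  unfold Sp
  simp only [mem_filter, mem_univ, true_and]
  exact h1.trans (Nat.mul_le_mul_right _ (Lo_le_Hi hw hi))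

/-- `Δ_i` -/
noncomputable def Dl (T : Tower) {J : ℕ} (c : ℕ → Fin (2 ^ T.a) → Fin J → ℝ) (Lo Hi : ℕ → ℕ)
    (i : ℕ) : Finset (Fin (2 ^ T.a)) := Sf T c Lo (i + 1) \ Sp T c Hi i

theorem Dl_disj (hT : T.OK H₂ ε C₀ g Γ) (hw : Win T c δ Lo r Hi) {i i' : ℕ} (hi : i < T.top)
    (hi' : i' < T.top) (h : i ≠ i') : Disjoint (Dl T c Lo Hi i) (Dl T c Lo Hi i') := by
  wlog hlt : i < i' generalizing i i'
  · exact (this hi' hi h.symm (by omega)).symm
  rw [Finset.disjoint_left]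
  intro ν h1 h2
  unfold Dl at h1 h2
  rw [mem_sdiff] at h1 h2
  exact h2.2 (Sf_subset_Sp hT hw (by omega) hi' h1.1)

theorem Dl_compl (hT : T.OK H₂ ε C₀ g Γ) (hw : Win T c δ Lo r Hi) {s i : ℕ} (hi : i < T.top)
    (h : s < i) : Dl T c Lo Hi i ⊆ (Sf T c Lo (s + 1))ᶜ := by
  intro ν h1
  unfold Dl at h1
  rw [mem_sdiff] at h1
  rw [mem_compl]
  intro h2
  exact h1.2 (Sf_subset_Sp hT hw (by omega) hi h2)

/-- sums over the disjoint sets `Δ_i` -/
theorem sum_Dl_le (hT : T.OK H₂ ε C₀ g Γ) (hw : Win T c δ Lo r Hi) (I : Finset ℕ)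
    (hI : ∀ i ∈ I, i < T.top) (U : Finset (Fin (2 ^ T.a)))
    (hU : ∀ i ∈ I, Dl T c Lo Hi i ⊆ U) (f : Fin (2 ^ T.a) → ℝ) (hf : ∀ ν, 0 ≤ f ν) :
    ∑ i ∈ I, ∑ ν ∈ Dl T c Lo Hi i, f ν ≤ ∑ ν ∈ U, f ν := by
  rw [← sum_biUnion]
  · refine sum_le_sum_of_subset_of_nonneg ?_ fun ν _ _ => hf ν
    intro ν hν
    rw [mem_biUnion] at hν
    obtain ⟨i, hi, h⟩ := hν
    exact hU i hi h
  · intro i hi i' hi' h
    exact Dl_disj hT hw (hI i hi) (hI i' hi') h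

theorem sum_sq_le {I : Finset ℕ} (a : ℕ → ℝ) (ha : ∀ i, 0 ≤ a i) :
    ∑ i ∈ I, a i ^ 2 ≤ (∑ i ∈ I, a i) ^ 2 := by
  rw [pow_two (∑ i ∈ I, a i), sum_mul]
  refine sum_le_sum fun i hi => ?_
  rw [pow_two]
  exact mul_le_mul_of_nonneg_left (single_le_sum (fun j _ => ha j) hi) (ha i)

theorem sum_Dl_sq_le (hT : T.OK H₂ ε C₀ g Γ) (hw : Win T c δ Lo r Hi) (I : Finset ℕ)
    (hI : ∀ i ∈ I, i < T.top) (f : Fin (2 ^ T.a) → ℝ) (hf : ∀ ν, 0 ≤ f ν) :
    ∑ i ∈ I, (∑ ν ∈ Dl T c Lo Hi i, f ν) ^ 2 ≤ (∑ ν, f ν) ^ 2 := by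
  refine (sum_sq_le _ fun i => sum_nonneg fun ν _ => hf ν).trans ?_
  refine pow_le_pow_left₀ (sum_nonneg fun i _ => sum_nonneg fun ν _ => hf ν) ?_ 2
  exact sum_Dl_le hT hw I hI univ (fun i _ => subset_univ _) f hf

theorem sum_rres_sq (R : Finset (Fin (2 ^ T.a))) (M : Fin (2 ^ T.a) → Fin J → ℝ) (j : Fin J) :
    ∑ ν, rres R M ν j ^ 2 = ∑ ν ∈ R, M ν j ^ 2 := by
  simp only [rres, ite_pow, zero_pow two_ne_zero, sum_ite_mem, univ_inter]

theorem sum_rres_abs (R : Finset (Fin (2 ^ T.a))) (M : Fin (2 ^ T.a) → Fin J → ℝ) (j : Fin J) :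
    ∑ ν, |rres R M ν j| = ∑ ν ∈ R, |M ν j| := by
  have : ∀ ν, |rres R M ν j| = if ν ∈ R then |M ν j| else 0 := by
    intro ν
    unfold rres
    split_ifs <;> simp
  simp only [this, sum_ite_mem, univ_inter]

/-! ### the `ℓ₁` norm of the accumulated contents -/

theorem acc_l1 (hT : T.OK H₂ ε C₀ g Γ) (hg : 1 ≤ g) (hK : 1 ≤ T.K)
    {y : (s : ℕ) → Fin (T.n s) → Fin J → ℝ} {j : Fin J}
    (hcost : T.cost (fun s b => y s b j) (fun s ν => c s ν j) ≤ 3) {s : ℕ} (hs : s ≤ T.top) :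
    (∑ ν, |T.accJ c s ν j|) ^ 2 ≤ 3 * (T.top + 1 : ℝ) ^ 2 * (T.K : ℝ) ^ (2 * T.top) * T.k s := by
  have hK' : (1 : ℝ) ≤ T.K := by exact_mod_cast hK
  have h1 : ∀ s' ≤ T.top, (∑ ν, |c s' ν j|) ^ 2 ≤ 3 * T.k s' := by
    intro s' hs'
    have hk : (0 : ℝ) < T.k s' := by exact_mod_cast hT.k_pos s'
    have h2 : (∑ ν, |c s' ν j|) ^ 2 / (T.k s' : ℝ) ≤
        T.cost (fun s b => y s b j) (fun s ν => c s ν j) := by
      unfold Tower.cost
      refine le_trans ?_ (single_le_sum (f := fun s => ∑ b, y s b j ^ 2 + ∑ ν, c s ν j ^ 2 +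
        (∑ ν, |c s ν j|) ^ 2 / (T.k s : ℝ)) (fun s _ => by positivity)
        (mem_range.2 (Nat.lt_succ_of_le hs')))
      have : 0 ≤ ∑ b, y s' b j ^ 2 + ∑ ν, c s' ν j ^ 2 := by positivity
      linarith
    have h3 := h2.trans hcost
    rwa [div_le_iff₀ hk] at h3
  have h4 : ∑ ν, |T.accJ c s ν j| ≤ ∑ s' ∈ range (s + 1), (T.K : ℝ) ^ (s - s') *
      ∑ ν, |c s' ν j| := by
    have : ∀ ν, |T.accJ c s ν j| ≤ ∑ s' ∈ range (s + 1), (T.K : ℝ) ^ (s - s') * |c s' ν j| := by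
      intro ν
      unfold Tower.accJ Tower.acc
      refine (abs_sum_le_sum_abs _ _).trans (sum_le_sum fun s' _ => ?_)
      rw [abs_mul, abs_of_nonneg (by positivity)]
    refine (sum_le_sum fun ν _ => this ν).trans (le_of_eq ?_)
    rw [sum_comm]
    exact sum_congr rfl fun s' _ => by rw [mul_sum]
  have h5 : (∑ ν, |T.accJ c s ν j|) ^ 2 ≤ (∑ s' ∈ range (s + 1), (T.K : ℝ) ^ (s - s') *
      ∑ ν, |c s' ν j|) ^ 2 := pow_le_pow_left₀ (by positivity) h4 2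
  refine h5.trans (sq_sum_le_card_mul_sum_sq.trans ?_)
  have h6 : ∀ s' ∈ range (s + 1), ((T.K : ℝ) ^ (s - s') * ∑ ν, |c s' ν j|) ^ 2 ≤
      (T.K : ℝ) ^ (2 * T.top) * (3 * T.k s) := by
    intro s' hs'
    rw [mem_range] at hs'
    rw [mul_pow, ← pow_mul]
    refine mul_le_mul ?_ ?_ (by positivity) (by positivity)
    · exact pow_le_pow_right₀ hK' (by omega)
    · refine (h1 s' (by omega)).trans ?_
      have : (T.k s' : ℝ) ≤ T.k s := by exact_mod_cast hT.k_mono hg (by omega) hs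
      linarith
  have h7 := sum_le_card_nsmul _ _ _ h6
  rw [card_range] at h7 ⊢
  have h8 : ((s + 1 : ℕ) : ℝ) ≤ T.top + 1 := by
    have : (s : ℝ) ≤ T.top := by exact_mod_cast hs
    push_cast
    linarith
  rw [nsmul_eq_mul] at h7
  calc ((s + 1 : ℕ) : ℝ) * ∑ s' ∈ range (s + 1), ((T.K : ℝ) ^ (s - s') * ∑ ν, |c s' ν j|) ^ 2
      ≤ ((s + 1 : ℕ) : ℝ) * (((s + 1 : ℕ) : ℝ) * ((T.K : ℝ) ^ (2 * T.top) * (3 * T.k s))) :=
        mul_le_mul_of_nonneg_left h7 (by positivity)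
    _ ≤ (T.top + 1 : ℝ) * ((T.top + 1 : ℝ) * ((T.K : ℝ) ^ (2 * T.top) * (3 * T.k s))) := by
        gcongr
    _ = _ := by ring

/-! ### the second representation of the main content -/

/-- contents `1_Δ c_s` for `s ≤ i` -/
noncomputable def cg (T : Tower) {J : ℕ} (c : ℕ → Fin (2 ^ T.a) → Fin J → ℝ) (Lo Hi : ℕ → ℕ)
    (i : ℕ) (s : ℕ) (ν : Fin (2 ^ T.a)) (j : Fin J) : ℝ :=
  if s ≤ i then rres (Dl T c Lo Hi i) (c s) ν j else 0

/-- noise `-G^s(1_Δ b_s)` for `s < i` -/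
noncomputable def yg (T : Tower) {J : ℕ} (c : ℕ → Fin (2 ^ T.a) → Fin J → ℝ) (Lo Hi : ℕ → ℕ)
    (i : ℕ) (s : ℕ) (b : Fin (T.n s)) (j : Fin J) : ℝ :=
  if s < i then - T.GM s (rres (Dl T c Lo Hi i) (T.accJ c s)) b j else 0

/-- the content `ū_i` at level `i` only -/
noncomputable def eg (T : Tower) {J : ℕ} (c : ℕ → Fin (2 ^ T.a) → Fin J → ℝ) (Lo Hi : ℕ → ℕ)
    (i : ℕ) (s : ℕ) (ν : Fin (2 ^ T.a)) (j : Fin J) : ℝ :=
  if s = i then Ub T c Lo Hi i ν j else 0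

theorem rres_accJ_succ (R : Finset (Fin (2 ^ T.a))) (s : ℕ) (ν : Fin (2 ^ T.a)) (j : Fin J) :
    rres R (T.accJ c (s + 1)) ν j = rres R (c (s + 1)) ν j + T.K * rres R (T.accJ c s) ν j := by
  unfold rres
  split_ifs
  · exact accJ_succ c s ν j
  · ring

theorem acc_cg_le {i s : ℕ} (h : s ≤ i) (ν : Fin (2 ^ T.a)) (j : Fin J) :
    T.accJ (cg T c Lo Hi i) s ν j = rres (Dl T c Lo Hi i) (T.accJ c s) ν j := by
  induction s with
  | zero =>
    have h1 : T.accJ (cg T c Lo Hi i) 0 ν j = cg T c Lo Hi i 0 ν j := T.acc_zero _ _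
    rw [h1]
    unfold cg
    rw [if_pos (Nat.zero_le _)]
    unfold rres
    have h2 : T.accJ c 0 ν j = c 0 ν j := T.acc_zero _ _
    rw [h2]
  | succ m ih =>
    rw [accJ_succ, ih (by omega), rres_accJ_succ]
    unfold cg
    rw [if_pos h]

theorem acc_eg_lt {i s : ℕ} (h : s < i) (ν : Fin (2 ^ T.a)) (j : Fin J) :
    T.accJ (eg T c Lo Hi i) s ν j = 0 := by
  unfold Tower.accJ Tower.acc
  refine sum_eq_zero fun s' hs' => ?_
  rw [mem_range] at hs'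
  have h1 : eg T c Lo Hi i s' ν j = 0 := by
    unfold eg
    rw [if_neg (by omega)]
  simp only [h1, mul_zero]

theorem acc_eg_self (i : ℕ) (ν : Fin (2 ^ T.a)) (j : Fin J) :
    T.accJ (eg T c Lo Hi i) i ν j = Ub T c Lo Hi i ν j := by
  rcases Nat.eq_zero_or_pos i with h | h
  · subst h
    have h1 : T.accJ (eg T c Lo Hi 0) 0 ν j = eg T c Lo Hi 0 0 ν j := T.acc_zero _ _
    rw [h1]
    unfold eg
    rw [if_pos rfl]
  · obtain ⟨m, rfl⟩ : ∃ m, i = m + 1 := ⟨i - 1, by omega⟩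
    rw [accJ_succ, acc_eg_lt (Nat.lt_succ_self m)]
    unfold eg
    rw [if_pos rfl]
    ring

theorem acc_eg_ge {i s : ℕ} (h : i ≤ s) (ν : Fin (2 ^ T.a)) (j : Fin J) :
    T.accJ (eg T c Lo Hi i) s ν j = T.accJ (cg T c Lo Hi i) s ν j := by
  induction s, h using Nat.le_induction with
  | base =>
    rw [acc_eg_self, acc_cg_le le_rfl]
    rfl
  | succ m hm ih =>
    rw [accJ_succ, accJ_succ, ih]
    congr 1
    unfold eg cg
    rw [if_neg (by omega), if_neg (by omega)]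

theorem ev_eg_eq (i s : ℕ) (b : Fin (T.n s)) (j : Fin J) :
    T.ev (fun _ _ => 0) (fun s ν => eg T c Lo Hi i s ν j) s b =
      T.ev (fun s b => yg T c Lo Hi i s b j) (fun s ν => cg T c Lo Hi i s ν j) s b := by
  have h1 : T.ev (fun _ _ => 0) (fun s ν => eg T c Lo Hi i s ν j) s b =
      T.GM s (T.accJ (eg T c Lo Hi i) s) b j := by
    unfold Tower.ev
    rw [zero_add]
    rfl
  have h2 : T.ev (fun s b => yg T c Lo Hi i s b j) (fun s ν => cg T c Lo Hi i s ν j) s b =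
      yg T c Lo Hi i s b j + T.GM s (T.accJ (cg T c Lo Hi i) s) b j := rfl
  rw [h1, h2]
  by_cases h : s < i
  · have h3 : T.accJ (eg T c Lo Hi i) s = fun ν j => 0 := by
      funext ν j
      exact acc_eg_lt h ν j
    have h4 : T.accJ (cg T c Lo Hi i) s = rres (Dl T c Lo Hi i) (T.accJ c s) := by
      funext ν j
      exact acc_cg_le h.le ν j
    rw [h3, h4]
    unfold yg
    rw [if_pos h]
    simp [Tower.GM]
  · have h3 : T.accJ (eg T c Lo Hi i) s = T.accJ (cg T c Lo Hi i) s := by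
      funext ν j
      exact acc_eg_ge (by omega) ν j
    rw [h3]
    unfold yg
    rw [if_neg h, zero_add]

theorem cZ_split (i s : ℕ) (ν : Fin (2 ^ T.a)) (j : Fin J) :
    cZ T c Lo Hi i s ν j = T.above i (cZ T c Lo Hi i) s ν j + eg T c Lo Hi i s ν j := by
  unfold Tower.above eg
  rcases lt_trichotomy s i with h | h | h
  · rw [cZ_lt c Lo Hi i h, if_pos h.le, if_neg h.ne]
    ring
  · subst h
    rw [cZ_self, if_pos le_rfl, if_pos rfl]
    ring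
  · rw [if_neg (by omega), if_neg h.ne']
    ring

theorem usq_mul (hJ : 1 ≤ J) (i : ℕ) :
    usq T c Lo i * J = ∑ j, ∑ ν ∈ (Sf T c Lo i)ᶜ, T.accJ c i ν j ^ 2 := by
  have hJ' : (J : ℝ) ≠ 0 := by
    have : (1 : ℝ) ≤ J := by exact_mod_cast hJ
    positivity
  unfold usq
  rw [div_mul_cancel₀ _ hJ', sum_comm]

theorem usq_nonneg (i : ℕ) : 0 ≤ usq T c Lo i := by
  unfold usq
  positivity

theorem b_low (hK : 1 ≤ T.K) (hJ : 1 ≤ J) (s : ℕ) :
    ∑ j, ∑ ν ∈ (Sf T c Lo (s + 1))ᶜ, T.accJ c s ν j ^ 2 ≤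
      2 / (T.K : ℝ) ^ 2 * (usq T c Lo (s + 1) * J + ∑ j, ∑ ν, c (s + 1) ν j ^ 2) := by
  have hK' : (1 : ℝ) ≤ T.K := by exact_mod_cast hK
  rw [usq_mul hJ, mul_add, mul_sum, mul_sum, ← sum_add_distrib]
  refine sum_le_sum fun j _ => ?_
  have h1 : ∑ ν ∈ (Sf T c Lo (s + 1))ᶜ, c (s + 1) ν j ^ 2 ≤ ∑ ν, c (s + 1) ν j ^ 2 :=
    sum_le_sum_of_subset_of_nonneg (subset_univ _) fun _ _ _ => sq_nonneg _
  have h2 : 2 / (T.K : ℝ) ^ 2 * ∑ ν ∈ (Sf T c Lo (s + 1))ᶜ, c (s + 1) ν j ^ 2 ≤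
      2 / (T.K : ℝ) ^ 2 * ∑ ν, c (s + 1) ν j ^ 2 := mul_le_mul_of_nonneg_left h1 (by positivity)
  refine le_trans ?_ (add_le_add_right h2 _)
  rw [mul_sum, mul_sum, ← sum_add_distrib]
  refine sum_le_sum fun ν _ => ?_
  rw [accJ_succ c s ν j, ← mul_add, div_mul_eq_mul_div, le_div_iff₀ (by positivity)]
  nlinarith [sq_nonneg (c (s + 1) ν j + (c (s + 1) ν j + T.K * T.accJ c s ν j))]

/-- contents part of the cost, for a fixed level and column -/
theorem part_c (hT : T.OK H₂ ε C₀ g Γ) (hw : Win T c δ Lo r Hi) (s : ℕ) (j : Fin J) :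
    ∑ i ∈ range T.top, (∑ ν, cg T c Lo Hi i s ν j ^ 2 +
      (∑ ν, |cg T c Lo Hi i s ν j|) ^ 2 / (T.k s : ℝ)) ≤
      ∑ ν, c s ν j ^ 2 + (∑ ν, |c s ν j|) ^ 2 / (T.k s : ℝ) := by
  rw [sum_add_distrib]
  refine add_le_add ?_ ?_
  · have h1 : ∀ i ∈ range T.top, ∑ ν, cg T c Lo Hi i s ν j ^ 2 ≤
        ∑ ν ∈ Dl T c Lo Hi i, c s ν j ^ 2 := by
      intro i _
      unfold cg
      split_ifs
      · rw [sum_rres_sq]
      · simp only [zero_pow two_ne_zero, sum_const_zero]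
        positivity
    refine (sum_le_sum h1).trans ?_
    exact sum_Dl_le hT hw (range T.top) (fun i hi => mem_range.1 hi) univ
      (fun i _ => subset_univ _) _ (fun _ => sq_nonneg _)
  · rw [← sum_div]
    refine div_le_div_of_nonneg_right ?_ (Nat.cast_nonneg _)
    have h1 : ∀ i ∈ range T.top, (∑ ν, |cg T c Lo Hi i s ν j|) ^ 2 ≤
        (∑ ν ∈ Dl T c Lo Hi i, |c s ν j|) ^ 2 := by
      intro i _
      unfold cg
      split_ifs
      · rw [sum_rres_abs]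
      · simp only [abs_zero, sum_const_zero, zero_pow two_ne_zero]
        positivity
    refine (sum_le_sum h1).trans ?_
    exact sum_Dl_sq_le hT hw (range T.top) (fun i hi => mem_range.1 hi) _ (fun _ => abs_nonneg _)

/-- noise part of the cost, for a fixed level -/
theorem part_y (hT : T.OK H₂ ε C₀ g Γ) (hε : 0 ≤ ε) (hε1 : ε < 1) (hw : Win T c δ Lo r Hi)
    {s : ℕ} (hsT : s ≤ T.top) :
    ∑ i ∈ range T.top, ∑ j, ∑ b, yg T c Lo Hi i s b j ^ 2 ≤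
      if s < T.top then 2 * ∑ j, ∑ ν ∈ (Sf T c Lo (s + 1))ᶜ, T.accJ c s ν j ^ 2 +
        T.eta s * ∑ j, (∑ ν, |T.accJ c s ν j|) ^ 2 else 0 := by
  have h1 : ∀ i ∈ range T.top, ∑ j, ∑ b, yg T c Lo Hi i s b j ^ 2 =
      if s < i then hs (T.GM s (rres (Dl T c Lo Hi i) (T.accJ c s))) else 0 := by
    intro i _
    unfold yg hs
    split_ifs
    · rw [sum_comm]
      simp only [neg_sq]
    · simp
  rw [sum_congr rfl h1, ← sum_filter]
  by_cases hst : s < T.top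
  · rw [if_pos hst]
    set I := (range T.top).filter (fun i => s < i) with hI
    have hI1 : ∀ i ∈ I, i < T.top := fun i hi => mem_range.1 (mem_filter.1 hi).1
    have hI2 : ∀ i ∈ I, s < i := fun i hi => (mem_filter.1 hi).2
    have h2 : ∀ i ∈ I, hs (T.GM s (rres (Dl T c Lo Hi i) (T.accJ c s))) ≤
        2 * ∑ j, ∑ ν ∈ Dl T c Lo Hi i, T.accJ c s ν j ^ 2 +
          T.eta s * ∑ j, (∑ ν ∈ Dl T c Lo Hi i, |T.accJ c s ν j|) ^ 2 := by
      intro i _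
      refine (hT.hs_GM_le_col hε hsT _).trans ?_
      simp only [sum_rres_abs]
      refine add_le_add ?_ le_rfl
      have h3 : hs (rres (Dl T c Lo Hi i) (T.accJ c s)) =
          ∑ j, ∑ ν ∈ Dl T c Lo Hi i, T.accJ c s ν j ^ 2 := by
        unfold hs
        rw [sum_comm]
        exact sum_congr rfl fun j _ => sum_rres_sq _ _ j
      rw [h3]
      have h4 : 0 ≤ ∑ j, ∑ ν ∈ Dl T c Lo Hi i, T.accJ c s ν j ^ 2 := by positivity
      nlinarith
    refine (sum_le_sum h2).trans ?_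
    rw [sum_add_distrib, ← mul_sum, ← mul_sum]
    refine add_le_add (mul_le_mul_of_nonneg_left ?_ (by norm_num))
      (mul_le_mul_of_nonneg_left ?_ (T.eta_nonneg s))
    · rw [sum_comm]
      refine sum_le_sum fun j _ => ?_
      exact sum_Dl_le hT hw I hI1 _ (fun i hi => Dl_compl hT hw (hI1 i hi) (hI2 i hi)) _
        (fun _ => sq_nonneg _)
    · rw [sum_comm]
      refine sum_le_sum fun j _ => ?_
      exact sum_Dl_sq_le hT hw I hI1 _ (fun _ => abs_nonneg _)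
  · rw [if_neg hst]
    refine (sum_eq_zero fun i hi => ?_).le
    have h3 := (mem_filter.1 hi).1
    have h4 := (mem_filter.1 hi).2
    rw [mem_range] at h3
    omega

/-- the cost of the second representation -/
theorem cost_le (y : (s : ℕ) → Fin (T.n s) → Fin J → ℝ) (hT : T.OK H₂ ε C₀ g Γ) (hg : 1 ≤ g)
    (hε : 0 ≤ ε) (hε1 : ε < 1) (hK : 1 ≤ T.K) (hw : Win T c δ Lo r Hi) (hJ : 1 ≤ J)
    (hΓ : 24 * (T.top + 1 : ℝ) ^ 3 * (T.K : ℝ) ^ (2 * T.top) ≤ Γ)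
    (hcost : ∀ j, T.cost (fun s b => y s b j) (fun s ν => c s ν j) ≤ 3) :
    ∑ i ∈ range T.top, ∑ j, T.cost (fun s b => yg T c Lo Hi i s b j)
      (fun s ν => cg T c Lo Hi i s ν j) ≤
      (16 * (T.K : ℝ) ^ 2 + 4 / (T.K : ℝ) ^ 2 * ∑ i ∈ range (T.top + 1), usq T c Lo i) * J := by
  have hK' : (1 : ℝ) ≤ T.K := by exact_mod_cast hK
  have hJ' : (1 : ℝ) ≤ J := by exact_mod_cast hJ
  set Y : ℕ → ℝ := fun s => ∑ i ∈ range T.top, ∑ j, ∑ b, yg T c Lo Hi i s b j ^ 2 with hY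
  set Cc : ℕ → Fin J → ℝ := fun s j => ∑ i ∈ range T.top, (∑ ν, cg T c Lo Hi i s ν j ^ 2 +
      (∑ ν, |cg T c Lo Hi i s ν j|) ^ 2 / (T.k s : ℝ)) with hCc
  have e0 : ∑ i ∈ range T.top, ∑ j, T.cost (fun s b => yg T c Lo Hi i s b j)
      (fun s ν => cg T c Lo Hi i s ν j) =
      ∑ s ∈ range (T.top + 1), Y s + ∑ j, ∑ s ∈ range (T.top + 1), Cc s j := by
    have e1 : ∑ j, ∑ s ∈ range (T.top + 1), Cc s j = ∑ s ∈ range (T.top + 1), ∑ j, Cc s j :=
      sum_comm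
    rw [e1, ← sum_add_distrib]
    have e2 : ∑ i ∈ range T.top, ∑ j, T.cost (fun s b => yg T c Lo Hi i s b j)
        (fun s ν => cg T c Lo Hi i s ν j) = ∑ i ∈ range T.top, ∑ s ∈ range (T.top + 1),
          ∑ j, (∑ b, yg T c Lo Hi i s b j ^ 2 + ∑ ν, cg T c Lo Hi i s ν j ^ 2 +
            (∑ ν, |cg T c Lo Hi i s ν j|) ^ 2 / (T.k s : ℝ)) := by
      refine sum_congr rfl fun i _ => ?_
      unfold Tower.cost
      rw [sum_comm]
    rw [e2, sum_comm]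
    refine sum_congr rfl fun s _ => ?_
    rw [hY, hCc]
    simp only
    rw [sum_comm (s := (univ : Finset (Fin J))) (t := range T.top), ← sum_add_distrib]
    refine sum_congr rfl fun i _ => ?_
    rw [← sum_add_distrib]
    exact sum_congr rfl fun j _ => by ring
  -- contents
  have hC : ∑ j, ∑ s ∈ range (T.top + 1), Cc s j ≤ 3 * J := by
    have h1 : ∀ j ∈ (univ : Finset (Fin J)), ∑ s ∈ range (T.top + 1), Cc s j ≤ 3 := by
      intro j _
      refine le_trans ?_ (hcost j)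
      unfold Tower.cost
      refine sum_le_sum fun s _ => ?_
      have h2 := part_c hT hw s j
      have h3 : 0 ≤ ∑ b, y s b j ^ 2 := by positivity
      simp only [hCc]
      linarith
    have h2 := sum_le_card_nsmul _ _ _ h1
    rw [card_univ, Fintype.card_fin, nsmul_eq_mul] at h2
    linarith
  -- sum of squares of contents
  have hcc : ∑ s ∈ range T.top, ∑ j, ∑ ν, c (s + 1) ν j ^ 2 ≤ 3 * J := by
    rw [sum_comm]
    have h1 : ∀ j ∈ (univ : Finset (Fin J)), ∑ s ∈ range T.top, ∑ ν, c (s + 1) ν j ^ 2 ≤ 3 := by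
      intro j _
      refine le_trans ?_ (hcost j)
      unfold Tower.cost
      rw [sum_range_succ']
      have h4 : 0 ≤ ∑ b, y 0 b j ^ 2 + ∑ ν, c 0 ν j ^ 2 + (∑ ν, |c 0 ν j|) ^ 2 / (T.k 0 : ℝ) := by
        positivity
      refine le_trans (sum_le_sum fun s _ => ?_) (le_add_of_nonneg_right h4)
      have h3 : 0 ≤ ∑ b, y (s + 1) b j ^ 2 := by positivity
      have h5 : 0 ≤ (∑ ν, |c (s + 1) ν j|) ^ 2 / (T.k (s + 1) : ℝ) := by positivity
      linarith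
    have h2 := sum_le_card_nsmul _ _ _ h1
    rw [card_univ, Fintype.card_fin, nsmul_eq_mul] at h2
    linarith
  -- noise
  have hYs : ∑ s ∈ range (T.top + 1), Y s ≤
      4 / (T.K : ℝ) ^ 2 * ((∑ i ∈ range (T.top + 1), usq T c Lo i) * J + 3 * J) + J := by
    have h1 : ∑ s ∈ range (T.top + 1), Y s ≤ ∑ s ∈ range T.top,
        (2 * ∑ j, ∑ ν ∈ (Sf T c Lo (s + 1))ᶜ, T.accJ c s ν j ^ 2 +
        T.eta s * ∑ j, (∑ ν, |T.accJ c s ν j|) ^ 2) := by
      refine (sum_le_sum fun s hs => part_y hT hε hε1 hw (Nat.lt_succ_iff.1 (mem_range.1 hs))).trans ?_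
      rw [sum_range_succ, if_neg (lt_irrefl _), add_zero]
      refine (sum_congr rfl fun s hs => ?_).le
      rw [if_pos (mem_range.1 hs)]
    refine h1.trans ?_
    rw [sum_add_distrib]
    refine add_le_add ?_ ?_
    · have h2 : ∀ s ∈ range T.top, 2 * ∑ j, ∑ ν ∈ (Sf T c Lo (s + 1))ᶜ, T.accJ c s ν j ^ 2 ≤
          4 / (T.K : ℝ) ^ 2 * (usq T c Lo (s + 1) * J + ∑ j, ∑ ν, c (s + 1) ν j ^ 2) := by
        intro s _
        have h3 := b_low (c := c) (Lo := Lo) hK hJ s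
        calc 2 * ∑ j, ∑ ν ∈ (Sf T c Lo (s + 1))ᶜ, T.accJ c s ν j ^ 2 ≤
            2 * (2 / (T.K : ℝ) ^ 2 * (usq T c Lo (s + 1) * J + ∑ j, ∑ ν, c (s + 1) ν j ^ 2)) :=
              mul_le_mul_of_nonneg_left h3 (by norm_num)
          _ = _ := by ring
      refine (sum_le_sum h2).trans ?_
      rw [← mul_sum, sum_add_distrib, ← sum_mul]
      refine mul_le_mul_of_nonneg_left ?_ (by positivity)
      refine add_le_add (mul_le_mul_of_nonneg_right ?_ (by positivity)) hcc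
      rw [sum_range_succ' _ T.top]
      exact le_add_of_nonneg_right (usq_nonneg 0)
    · have h2 : ∀ s ∈ range T.top, T.eta s * ∑ j, (∑ ν, |T.accJ c s ν j|) ^ 2 ≤
          J / (T.top + 1 : ℝ) := by
        intro s hs
        rw [mem_range] at hs
        have hk : (0 : ℝ) < T.k s := by exact_mod_cast hT.k_pos s
        have h3 : ∀ j ∈ (univ : Finset (Fin J)), (∑ ν, |T.accJ c s ν j|) ^ 2 ≤
            3 * (T.top + 1 : ℝ) ^ 2 * (T.K : ℝ) ^ (2 * T.top) * T.k s :=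
          fun j _ => acc_l1 hT hg hK (hcost j) hs.le
        have h4 := sum_le_card_nsmul _ _ _ h3
        rw [card_univ, Fintype.card_fin, nsmul_eq_mul] at h4
        have h5 := mul_le_mul_of_nonneg_left h4 (T.eta_nonneg s)
        refine h5.trans ?_
        have h6 := hT.eta_mul_le s 1 (by norm_num)
        rw [pow_one] at h6
        have h7 : (T.k s : ℝ) ≥ Γ := by
          have := hT.base.trans (hT.k_ge s)
          exact_mod_cast this
        have h8 : 8 / (T.k s : ℝ) * (3 * (T.top + 1 : ℝ) ^ 2 * (T.K : ℝ) ^ (2 * T.top)) ≤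
            1 / (T.top + 1 : ℝ) := by
          rw [div_mul_eq_mul_div, div_le_div_iff₀ hk (by positivity)]
          calc 8 * (3 * (T.top + 1 : ℝ) ^ 2 * (T.K : ℝ) ^ (2 * T.top)) * (T.top + 1 : ℝ) =
              24 * (T.top + 1 : ℝ) ^ 3 * (T.K : ℝ) ^ (2 * T.top) := by ring
            _ ≤ (Γ : ℝ) := hΓ
            _ ≤ 1 * (T.k s : ℝ) := by linarith
        calc T.eta s * (J * (3 * (T.top + 1 : ℝ) ^ 2 * (T.K : ℝ) ^ (2 * T.top) * T.k s))
            = (T.eta s * T.k s) * (J * (3 * (T.top + 1 : ℝ) ^ 2 * (T.K : ℝ) ^ (2 * T.top))) := by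
              ring
          _ ≤ 8 / T.k s * (J * (3 * (T.top + 1 : ℝ) ^ 2 * (T.K : ℝ) ^ (2 * T.top))) :=
              mul_le_mul_of_nonneg_right h6 (by positivity)
          _ = J * (8 / (T.k s : ℝ) * (3 * (T.top + 1 : ℝ) ^ 2 * (T.K : ℝ) ^ (2 * T.top))) := by
              ring
          _ ≤ J * (1 / (T.top + 1 : ℝ)) := mul_le_mul_of_nonneg_left h8 (by positivity)
          _ = _ := by ring
      have h3 := sum_le_card_nsmul _ _ _ h2
      rw [card_range, nsmul_eq_mul] at h3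
      refine h3.trans ?_
      rw [mul_div_assoc', div_le_iff₀ (by positivity)]
      nlinarith
  rw [e0]
  set U := ∑ i ∈ range (T.top + 1), usq T c Lo i with hU
  have hfin : 4 / (T.K : ℝ) ^ 2 * (U * J + 3 * J) + J + 3 * J ≤
      (16 * (T.K : ℝ) ^ 2 + 4 / (T.K : ℝ) ^ 2 * U) * J := by
    have h1 : 4 / (T.K : ℝ) ^ 2 ≤ 4 := by
      rw [div_le_iff₀ (by positivity)]
      nlinarith
    have h2 : (1 : ℝ) ≤ (T.K : ℝ) ^ 2 := by nlinarith
    have h3 : 4 / (T.K : ℝ) ^ 2 * (3 * J) ≤ 4 * (3 * J) :=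
      mul_le_mul_of_nonneg_right h1 (by positivity)
    have h4 : 16 * (J : ℝ) ≤ 16 * (T.K : ℝ) ^ 2 * J := by nlinarith
    have h5 : 4 / (T.K : ℝ) ^ 2 * (U * J + 3 * J) =
        4 / (T.K : ℝ) ^ 2 * U * J + 4 / (T.K : ℝ) ^ 2 * (3 * J) := by ring
    rw [h5]
    nlinarith
  linarith

theorem main : S_ZC := by
  intro K top B hK hB
  refine ⟨1, one_pos, 24 * (top + 1) ^ 3 * K ^ (2 * top), ?_⟩
  intro H₂ ε C₀ δ g T hg hε _ hε1 hTK hTtop hOK E _ _ X J x y c Lo r Hi hJ hrep _ hw hcost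
  subst hTK
  subst hTtop
  have hΓ : 24 * (T.top + 1 : ℝ) ^ 3 * (T.K : ℝ) ^ (2 * T.top) ≤
      ((24 * (T.top + 1) ^ 3 * T.K ^ (2 * T.top) : ℕ) : ℝ) := by
    push_cast
    exact le_rfl
  have hCost := cost_le y hOK (by omega) hε.le hε1 hK hw hJ hΓ hcost
  have hex : ∀ (i : ℕ) (j : Fin J), ∃ h : E, ∀ s ≤ T.top, ∀ b, X.lev s h b =
      T.ev (fun s b => yZ T y c Lo Hi i s b j)
        (fun s ν => T.above i (cZ T c Lo Hi i) s ν j) s b := fun i j =>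
    X.surj (fun s b => T.ev (fun s b => yZ T y c Lo Hi i s b j)
        (fun s ν => T.above i (cZ T c Lo Hi i) s ν j) s b)
  choose h hh using hex
  have hmc : ∀ i, ∑ j, ‖h i j‖ ^ 2 ≤
      T.mc (yZ T y c Lo Hi i) (T.above i (cZ T c Lo Hi i)) := fun i =>
    sum_norm_sq_le X (fun s hs b j => hh i j s hs b)
  have hg2 : ∀ i j, ‖mixE (matOf (Qf T c Lo i)) x j - h i j‖ ^ 2 ≤
      T.cost (fun s b => yg T c Lo Hi i s b j) (fun s ν => cg T c Lo Hi i s ν j) := by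
    intro i j
    apply X.upper
    intro s hs b
    rw [map_sub, Pi.sub_apply, hh i j s hs b, ← ev_eg_eq]
    have hZ := Run7.h651.NEG.ZR.main T E X J x y c Lo Hi i hrep s hs b j
    rw [hZ, sub_eq_iff_eq_add]
    have h2 := T.ev_add (fun _ _ => 0) (fun s b => yZ T y c Lo Hi i s b j)
      (fun s ν => eg T c Lo Hi i s ν j) (fun s ν => T.above i (cZ T c Lo Hi i) s ν j) s b
    rw [← h2]
    have h3 : (fun s ν => cZ T c Lo Hi i s ν j) = (fun s ν => eg T c Lo Hi i s ν j +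
        T.above i (cZ T c Lo Hi i) s ν j) := by
      funext s ν
      rw [cZ_split i s ν j, add_comm]
    have h4 : (fun s b => yZ T y c Lo Hi i s b j) =
        (fun (s : ℕ) (b : Fin (T.n s)) => 0 + yZ T y c Lo Hi i s b j) := by
      funext s b
      rw [zero_add]
    rw [← h3, ← h4]
  have hij : ∀ i ∈ range T.top, ∑ j, ‖mixE (matOf (Qf T c Lo i)) x j‖ ^ 2 ≤
      2 * T.mc (yZ T y c Lo Hi i) (T.above i (cZ T c Lo Hi i)) +
        2 * ∑ j, T.cost (fun s b => yg T c Lo Hi i s b j) (fun s ν => cg T c Lo Hi i s ν j) := by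
    intro i _
    have h1 : ∀ j, ‖mixE (matOf (Qf T c Lo i)) x j‖ ^ 2 ≤ 2 * ‖h i j‖ ^ 2 +
        2 * T.cost (fun s b => yg T c Lo Hi i s b j) (fun s ν => cg T c Lo Hi i s ν j) := by
      intro j
      have h2 := hg2 i j
      have h3 : ‖mixE (matOf (Qf T c Lo i)) x j‖ ≤ ‖h i j‖ +
          ‖mixE (matOf (Qf T c Lo i)) x j - h i j‖ := by
        have := norm_add_le (h i j) (mixE (matOf (Qf T c Lo i)) x j - h i j)
        rwa [add_sub_cancel] at this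
      have h4 := pow_le_pow_left₀ (norm_nonneg _) h3 2
      nlinarith [sq_nonneg (‖h i j‖ - ‖mixE (matOf (Qf T c Lo i)) x j - h i j‖)]
    refine (sum_le_sum fun j _ => h1 j).trans ?_
    rw [sum_add_distrib, ← mul_sum, ← mul_sum]
    have := hmc i
    linarith
  refine (sum_le_sum hij).trans ?_
  rw [sum_add_distrib, ← mul_sum, ← mul_sum]
  refine add_le_add le_rfl ?_
  refine (mul_le_mul_of_nonneg_left hCost (by norm_num : (0 : ℝ) ≤ 2)).trans ?_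
  have hU : 0 ≤ ∑ i ∈ range (T.top + 1), usq T c Lo i := sum_nonneg fun i _ => usq_nonneg i
  have hK0 : (0 : ℝ) ≤ (T.K : ℝ) ^ 2 := by positivity
  have hJ0 : (0 : ℝ) ≤ J := by positivity
  rw [← mul_assoc]
  refine mul_le_mul_of_nonneg_right ?_ hJ0
  have h1 : 2 * (16 * (T.K : ℝ) ^ 2 + 4 / (T.K : ℝ) ^ 2 * ∑ i ∈ range (T.top + 1), usq T c Lo i) =
      32 * (T.K : ℝ) ^ 2 + 8 / (T.K : ℝ) ^ 2 * ∑ i ∈ range (T.top + 1), usq T c Lo i := by ring
  rw [h1]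
  refine add_le_add (by linarith) (mul_le_mul_of_nonneg_right ?_ hU)
  exact div_le_div_of_nonneg_right (by norm_num) hK0

end Run7.h651.NEG.ZC
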