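import Pool.Agent.Run7.h35.NEG.Iface3

set_option autoImplicit false

/-! # ZR: the representation of the localized tuple `Z_i = Q_i X` -/

namespace Run7.h651.NEG.ZR

open Finset Module Classical Run7.h35.NEG

variable {T : Tower} {J : ℕ}

section rowmap

variable {ι : Type} (Q : (Fin J → ℝ) →ₗ[ℝ] (Fin J → ℝ))

theorem rowmap_add (M M' : ι → Fin J → ℝ) (b : ι) (j : Fin J) :
    rowmap Q (fun b j => M b j + M' b j) b j = rowmap Q M b j + rowmap Q M' b j := by
  change Q (M b + M' b) j = _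
  rw [map_add]
  rfl

theorem rowmap_smul (r : ℝ) (M : ι → Fin J → ℝ) (b : ι) (j : Fin J) :
    rowmap Q (fun b j => r * M b j) b j = r * rowmap Q M b j := by
  change Q (r • M b) j = _
  rw [map_smul]
  rfl

theorem rowmap_GM (s : ℕ) (M : Fin (2 ^ T.a) → Fin J → ℝ) (b : Fin (T.n s)) (j : Fin J) :
    rowmap Q (T.GM s M) b j = T.GM s (rowmap Q M) b j := by
  have h : T.GM s M b = ∑ ν, T.G s b ν • M ν := by
    funext j
    simp [Tower.GM]
  unfold rowmap
  rw [h, map_sum]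
  simp [Tower.GM, rowmap]

theorem rowmap_rres_add (R : Finset (Fin (2 ^ T.a))) (M : Fin (2 ^ T.a) → Fin J → ℝ)
    (ν : Fin (2 ^ T.a)) (j : Fin J) :
    rowmap Q (rres R M) ν j + rowmap Q (rres Rᶜ M) ν j = rowmap Q M ν j := by
  rw [← rowmap_add]
  have h1 : (fun b j => rres R M b j + rres Rᶜ M b j) = M := by
    funext b j
    unfold rres
    by_cases h : b ∈ R
    · simp [h]
    · simp [h]
  rw [h1]

theorem apply_eq_sum (w : Fin J → ℝ) (j : Fin J) :
    Q w j = ∑ j', matOf Q j j' * w j' := by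
  conv_lhs => rw [← Finset.univ_sum_single w]
  rw [map_sum, Finset.sum_apply]
  refine sum_congr rfl fun j' _ => ?_
  have : (Pi.single j' (w j') : Fin J → ℝ) = w j' • Pi.single j' 1 := by
    rw [← Pi.single_smul]
    simp
  rw [this, map_smul, Pi.smul_apply, smul_eq_mul, mul_comm]
  rfl

theorem lev_mixE {E : Type} [NormedAddCommGroup E] [NormedSpace ℝ E] (X : TowerSpace T E)
    (x : Fin J → E) (s : ℕ) (b : Fin (T.n s)) (j : Fin J) :
    X.lev s (mixE (matOf Q) x j) b = Q (fun j' => X.lev s (x j') b) j := by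
  rw [apply_eq_sum]
  unfold mixE
  rw [map_sum, Finset.sum_apply]
  refine sum_congr rfl fun j' _ => ?_
  rw [map_smul, Pi.smul_apply, smul_eq_mul]

end rowmap

theorem accJ_succ (c : ℕ → Fin (2 ^ T.a) → Fin J → ℝ) (s : ℕ) (ν : Fin (2 ^ T.a)) (j : Fin J) :
    T.accJ c (s + 1) ν j = c (s + 1) ν j + T.K * T.accJ c s ν j :=
  T.acc_succ _ s ν

variable (c : ℕ → Fin (2 ^ T.a) → Fin J → ℝ) (Lo Hi : ℕ → ℕ) (i : ℕ)

theorem cZ_lt {s : ℕ} (hs : s < i) (ν : Fin (2 ^ T.a)) (j : Fin J) :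
    cZ T c Lo Hi i s ν j = 0 := by
  unfold cZ
  rw [if_pos hs]

theorem cZ_self (ν : Fin (2 ^ T.a)) (j : Fin J) :
    cZ T c Lo Hi i i ν j = Ub T c Lo Hi i ν j := by
  unfold cZ
  rw [if_neg (lt_irrefl _), if_pos rfl]

theorem cZ_one (ν : Fin (2 ^ T.a)) (j : Fin J) :
    cZ T c Lo Hi i (i + 1) ν j =
      T.K * (rowmap (Qf T c Lo i) (rres (Sf T c Lo (i + 1)) (T.accJ c i)) ν j -
        Ub T c Lo Hi i ν j) := by
  unfold cZ
  rw [if_neg (by omega), if_neg (by omega), if_pos rfl]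

theorem cZ_two (ν : Fin (2 ^ T.a)) (j : Fin J) :
    cZ T c Lo Hi i (i + 2) ν j =
      T.K * (A2 T c Lo i ν j + rowmap (Qf T c Lo i) (c (i + 1)) ν j) := by
  unfold cZ
  rw [if_neg (by omega), if_neg (by omega), if_neg (by omega), if_pos rfl]

theorem cZ_ge (m : ℕ) (ν : Fin (2 ^ T.a)) (j : Fin J) :
    cZ T c Lo Hi i (i + 3 + m) ν j = T.K * rowmap (Qf T c Lo i) (c (i + 2 + m)) ν j := by
  unfold cZ
  rw [if_neg (by omega), if_neg (by omega), if_neg (by omega), if_neg (by omega),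
    show i + 3 + m - 1 = i + 2 + m by omega]

theorem acc_lt {s : ℕ} (hs : s < i) (ν : Fin (2 ^ T.a)) (j : Fin J) :
    T.accJ (cZ T c Lo Hi i) s ν j = 0 := by
  unfold Tower.accJ Tower.acc
  refine sum_eq_zero fun s' hs' => ?_
  rw [mem_range] at hs'
  have h1 : s' < i := by omega
  have h2 := cZ_lt c Lo Hi i h1 ν j
  simp only [h2, mul_zero]

theorem acc_self (ν : Fin (2 ^ T.a)) (j : Fin J) :
    T.accJ (cZ T c Lo Hi i) i ν j = Ub T c Lo Hi i ν j := by
  rcases Nat.eq_zero_or_pos i with h | h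
  · subst h
    unfold Tower.accJ
    rw [T.acc_zero, cZ_self]
  · obtain ⟨m, rfl⟩ : ∃ m, i = m + 1 := ⟨i - 1, by omega⟩
    rw [accJ_succ, acc_lt c Lo Hi (m + 1) (Nat.lt_succ_self m), cZ_self]
    ring

theorem acc_one (ν : Fin (2 ^ T.a)) (j : Fin J) :
    T.accJ (cZ T c Lo Hi i) (i + 1) ν j =
      T.K * rowmap (Qf T c Lo i) (rres (Sf T c Lo (i + 1)) (T.accJ c i)) ν j := by
  rw [accJ_succ, acc_self, cZ_one]
  ring

theorem rowmap_accJ_succ (Q : (Fin J → ℝ) →ₗ[ℝ] (Fin J → ℝ)) (s : ℕ) (ν : Fin (2 ^ T.a))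
    (j : Fin J) :
    rowmap Q (T.accJ c (s + 1)) ν j =
      rowmap Q (c (s + 1)) ν j + T.K * rowmap Q (T.accJ c s) ν j := by
  rw [← rowmap_smul, ← rowmap_add]
  congr 1
  funext ν j
  exact accJ_succ c s ν j

theorem acc_ge (m : ℕ) (ν : Fin (2 ^ T.a)) (j : Fin J) :
    T.accJ (cZ T c Lo Hi i) (i + 2 + m) ν j =
      T.K * rowmap (Qf T c Lo i) (T.accJ c (i + 1 + m)) ν j := by
  induction m with
  | zero =>
    have h0 : T.accJ (cZ T c Lo Hi i) (i + 2 + 0) ν j = T.accJ (cZ T c Lo Hi i) (i + 1 + 1) ν j :=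
      rfl
    have h0' : T.accJ c (i + 1 + 0) = T.accJ c (i + 1) := rfl
    rw [h0, h0', accJ_succ, acc_one, rowmap_accJ_succ]
    have h1 : cZ T c Lo Hi i (i + 1 + 1) ν j = _ := cZ_two c Lo Hi i ν j
    rw [h1, A2]
    have h2 := rowmap_rres_add (Qf T c Lo i) (Sf T c Lo (i + 1)) (T.accJ c i) ν j
    rw [← h2]
    ring
  | succ m ih =>
    have h0 : T.accJ (cZ T c Lo Hi i) (i + 2 + (m + 1)) ν j =
      T.accJ (cZ T c Lo Hi i) (i + 2 + m + 1) ν j := rfl
    have h0' : T.accJ c (i + 1 + (m + 1)) = T.accJ c (i + 1 + m + 1) := rfl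
    have h1 : cZ T c Lo Hi i (i + 2 + m + 1) ν j =
        T.K * rowmap (Qf T c Lo i) (c (i + 1 + m + 1)) ν j := by
      have h3 := cZ_ge c Lo Hi i m ν j
      have h4 : i + 3 + m = i + 2 + m + 1 := by omega
      have h5 : i + 2 + m = i + 1 + m + 1 := by omega
      rw [h4] at h3
      rw [h3, h5]
    rw [h0, h0', accJ_succ, ih, rowmap_accJ_succ, h1]
    ring

theorem GM_add (s : ℕ) (M M' : Fin (2 ^ T.a) → Fin J → ℝ) (b : Fin (T.n s)) (j : Fin J) :
    T.GM s (fun ν j => M ν j + M' ν j) b j = T.GM s M b j + T.GM s M' b j := by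
  unfold Tower.GM
  rw [← sum_add_distrib]
  exact sum_congr rfl fun _ _ => by ring

theorem main : S_ZR := by
  intro T E _ _ X J x y c Lo Hi i hrep s hs b j
  set Q := Qf T c Lo i with hQ
  have hL : (fun j' => X.lev s (x j') b) = fun j' => y s b j' + T.GM s (T.accJ c s) b j' := by
    funext j'
    exact hrep s hs b j'
  have hLHS : X.lev s (mixE (matOf Q) x j) b =
      rowmap Q (fun b j => y s b j + T.GM s (T.accJ c s) b j) b j := by
    rw [lev_mixE, hL]
    rfl
  have hRHS : T.ev (fun s b => yZ T y c Lo Hi i s b j) (fun s ν => cZ T c Lo Hi i s ν j) s b =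
      yZ T y c Lo Hi i s b j + T.GM s (T.accJ (cZ T c Lo Hi i) s) b j := rfl
  rw [hLHS, hRHS]
  rcases lt_trichotomy s i with h | h | h
  · have h1 : T.GM s (T.accJ (cZ T c Lo Hi i) s) b j = 0 := by
      unfold Tower.GM
      refine sum_eq_zero fun ν _ => ?_
      rw [acc_lt c Lo Hi i h, mul_zero]
    rw [h1, add_zero]
    unfold yZ
    rw [if_pos h]
  · subst h
    have h1 : T.GM s (T.accJ (cZ T c Lo Hi s) s) b j = T.GM s (Ub T c Lo Hi s) b j := by
      unfold Tower.GM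
      refine sum_congr rfl fun ν _ => ?_
      rw [acc_self]
    rw [h1]
    unfold yZ
    rw [if_neg (lt_irrefl _), if_pos rfl]
    ring
  · have key : rowmap Q (fun b j => y s b j + T.GM s (T.accJ c s) b j) b j =
        rowmap Q (y s) b j + T.GM s (rowmap Q (T.accJ c s)) b j := by
      rw [rowmap_add, rowmap_GM]
    rw [key]
    rcases Nat.eq_or_lt_of_le (Nat.succ_le_of_lt h) with h2 | h2
    · have h3 : s = i + 1 := h2.symm
      subst h3
      have e1 : yZ T y c Lo Hi i (i + 1) b j = rowmap Q (y (i + 1)) b j +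
          T.GM (i + 1) (fun ν j => A2 T c Lo i ν j + rowmap Q (c (i + 1)) ν j) b j := by
        unfold yZ
        rw [if_neg (by omega), if_neg (by omega), if_pos rfl]
      have e2 : T.GM (i + 1) (rowmap Q (T.accJ c (i + 1))) b j =
          T.GM (i + 1) (fun ν j => A2 T c Lo i ν j + rowmap Q (c (i + 1)) ν j) b j +
            T.GM (i + 1) (T.accJ (cZ T c Lo Hi i) (i + 1)) b j := by
        rw [← GM_add]
        congr 1
        funext ν j
        rw [acc_one, rowmap_accJ_succ]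
        have h5 := rowmap_rres_add Q (Sf T c Lo (i + 1)) (T.accJ c i) ν j
        rw [← h5, A2]
        ring
      rw [e1, e2]
      ring
    · have e1 : yZ T y c Lo Hi i s b j = rowmap Q (y s) b j + T.GM s (rowmap Q (c s)) b j := by
        unfold yZ
        rw [if_neg (by omega), if_neg (by omega), if_neg (by omega)]
      have e2 : T.GM s (rowmap Q (T.accJ c s)) b j =
          T.GM s (rowmap Q (c s)) b j + T.GM s (T.accJ (cZ T c Lo Hi i) s) b j := by
        rw [← GM_add]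
        congr 1
        funext ν j
        have h6 : s = i + 2 + (s - (i + 2)) := by omega
        have h7 : s = i + 1 + (s - (i + 2)) + 1 := by omega
        have h8 := acc_ge c Lo Hi i (s - (i + 2)) ν j
        rw [← h6] at h8
        have h9 := rowmap_accJ_succ c Q (i + 1 + (s - (i + 2))) ν j
        rw [← h7] at h9
        rw [h8, h9]
      rw [e1, e2]
      ring

end Run7.h651.NEG.ZR
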